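import Pool.Agent.Helper98.MW.D.Expand

/-! MW-D03. All small drifts. Let `Q a` be: there is `r > 0` and a wall family over `Disc (a, 0) r`. `Q 1` by `base_family`.
If `0 < a ≤ 1` and `Q a`, then by `expand` (with `Disc_subset_Dom`) there is a family over `Disc (a, 0) (a^2/8)`, and
hence `Q a'` for all `a'` with `|a' - a| < a^2/8` (`Disc_subset_Disc`). So `Q a` for all `a ∈ (0, 1]`: otherwise let
`s = sup {a ∈ (0,1] : ¬ Q a}`, `0 < s ≤ 1`; if `Q s` then `Q` on a neighbourhood of `s` and above, contradiction with the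
supremum; if `¬ Q s` then `s < 1`, and `Q a` for `a ∈ (s, 1]` with `a` so close to `s` that `a - s < s^2/8 ≤ a^2/8`
gives `Q s`. Final form: use `expand` once more. -/

namespace Pool.Agent.Helper98.MW

/-- a family over some disc around `(a, 0)` -/
private def QF (a : ℝ) : Prop := ∃ r > 0, ∃ w, WallFam (Disc (a, 0) r) w

private theorem family_of_QF {a : ℝ} (ha : 0 < a) (ha1 : a ≤ 1) (h : QF a) :
    ∃ w, WallFam (Disc (a, 0) (a ^ 2 / 8)) w := by
  obtain ⟨r, hr, h⟩ := h
  exact expand hr (Disc_subset_Dom ha ha1) (by positivity) h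

private theorem QF_step {a a' : ℝ} (ha : 0 < a) (ha1 : a ≤ 1) (h : QF a)
    (hd : |a' - a| < a ^ 2 / 8) : QF a' := by
  obtain ⟨w, hw⟩ := family_of_QF ha ha1 h
  refine ⟨a ^ 2 / 8 - |a' - a|, by linarith, w, WallFam_mono hw ?_⟩
  refine Disc_subset_Disc (d := |a' - a|) (by linarith) (abs_nonneg _) ?_ (by linarith)
  rw [sq_abs]
  simp

private theorem QF_all {a : ℝ} (ha : 0 < a) (ha1 : a ≤ 1) : QF a := by
  have key : ∀ n : ℕ, QF (max a (1 - n * (a ^ 2 / 16))) := by
    intro n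
    induction n with
    | zero =>
      have h1 : max a (1 - ((0 : ℕ) : ℝ) * (a ^ 2 / 16)) = 1 := by
        rw [Nat.cast_zero, zero_mul, sub_zero]
        exact max_eq_right ha1
      rw [h1]
      exact base_family
    | succ n ih =>
      have hpos : 0 < a ^ 2 / 16 := by positivity
      have h0 : a ≤ max a (1 - n * (a ^ 2 / 16)) := le_max_left _ _
      have h1 : max a (1 - n * (a ^ 2 / 16)) ≤ 1 := by
        refine max_le ha1 ?_
        have : 0 ≤ (n : ℝ) * (a ^ 2 / 16) := by positivity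
        linarith
      refine QF_step (lt_of_lt_of_le ha h0) h1 ih ?_
      have h2 : |max a (1 - ((n + 1 : ℕ) : ℝ) * (a ^ 2 / 16)) - max a (1 - n * (a ^ 2 / 16))| ≤
          |(1 - ((n + 1 : ℕ) : ℝ) * (a ^ 2 / 16)) - (1 - n * (a ^ 2 / 16))| := by
        exact (abs_max_sub_max_le_max a _ a _).trans (by simp)
      have h3 : |(1 - ((n + 1 : ℕ) : ℝ) * (a ^ 2 / 16)) - (1 - n * (a ^ 2 / 16))| = a ^ 2 / 16 := by
        push_cast
        rw [show (1 - ((n : ℝ) + 1) * (a ^ 2 / 16)) - (1 - n * (a ^ 2 / 16)) = -(a ^ 2 / 16) by ring,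
          abs_neg, abs_of_pos hpos]
      have h4 : a ^ 2 ≤ max a (1 - n * (a ^ 2 / 16)) ^ 2 := pow_le_pow_left₀ ha.le h0 2
      rw [h3] at h2
      linarith
  obtain ⟨n, hn⟩ := exists_nat_ge (1 / (a ^ 2 / 16))
  have h := key n
  have hpos : 0 < a ^ 2 / 16 := by positivity
  have h1 : 1 ≤ (n : ℝ) * (a ^ 2 / 16) := by
    rwa [div_le_iff₀ hpos] at hn
  have h2 : max a (1 - n * (a ^ 2 / 16)) = a := max_eq_left (by linarith)
  rwa [h2] at h

theorem family_at {a : ℝ} (ha : 0 < a) (ha1 : a ≤ 1) :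
    ∃ w, WallFam (Disc (a, 0) (a ^ 2 / 8)) w := by
  exact family_of_QF ha ha1 (QF_all ha ha1)

end Pool.Agent.Helper98.MW
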