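import Pool.Agent.Helper98.MW.A.Slice
import Pool.Agent.Helper98.MW.A.Tube

/-! MW-D01. The trivial walls. `w (a, b, X, Y) = w0 X`, `w0 X = -X^2 (2 S((X+1)/2) - 1)`, `S = smoothTransition`:
smooth, `= -X^2` for `X ≥ 1`, `= X^2` for `X ≤ -1`. `H2 w _ eX eX = w0'' X`, `H2 w _ eX eY = H2 w _ eY eY = 0`.
`w0''` is continuous and `= ∓2` for `|X| > 1`, so bounded: `|w0''| ≤ C`. On `Disc (1, 0) r`, `r ≤ 1/10`, `C r ≤ 1/2`:
`a ≥ 9/10`, `w0'' b ≤ C r ≤ 1/2 < 81/100 ≤ a^2`, `2 a^2 > 1`. -/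

namespace Pool.Agent.Helper98.MW

private noncomputable def w0 (X : ℝ) : ℝ := -(X ^ 2 * (2 * Real.smoothTransition ((X + 1) / 2) - 1))

private theorem w0_contDiff : ContDiff ℝ (⊤ : ℕ∞) w0 := by
  unfold w0
  have h : ContDiff ℝ (⊤ : ℕ∞) (fun X : ℝ => Real.smoothTransition ((X + 1) / 2)) :=
    Real.smoothTransition.contDiff.comp ((contDiff_id.add contDiff_const).div_const 2)
  exact ((contDiff_id.pow 2).mul ((contDiff_const.mul h).sub contDiff_const)).neg

private theorem w0_right {X : ℝ} (h : 1 ≤ X) : w0 X = -X ^ 2 := by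
  unfold w0
  rw [Real.smoothTransition.one_of_one_le (by linarith)]
  ring

private theorem w0_left {X : ℝ} (h : X ≤ -1) : w0 X = X ^ 2 := by
  unfold w0
  rw [Real.smoothTransition.zero_of_nonpos (by linarith)]
  ring

private theorem w0_dd_right {X : ℝ} (h : 1 < X) : deriv (deriv w0) X = -2 := by
  have h1 : w0 =ᶠ[nhds X] fun x => -x ^ 2 := by
    filter_upwards [lt_mem_nhds h] with x hx
    exact w0_right hx.le
  rw [h1.deriv.deriv_eq]
  have h2 : deriv (fun x : ℝ => -x ^ 2) = fun x => -(2 * x) := by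
    funext x
    have := ((hasDerivAt_pow 2 x).neg).deriv
    simpa using this
  rw [h2]
  have h3 : HasDerivAt (fun x : ℝ => -(2 * x)) (-(2 * 1)) X := ((hasDerivAt_id X).const_mul 2).neg
  rw [h3.deriv]
  norm_num

private theorem w0_dd_left {X : ℝ} (h : X < -1) : deriv (deriv w0) X = 2 := by
  have h1 : w0 =ᶠ[nhds X] fun x => x ^ 2 := by
    filter_upwards [gt_mem_nhds h] with x hx
    exact w0_left hx.le
  rw [h1.deriv.deriv_eq]
  have h2 : deriv (fun x : ℝ => x ^ 2) = fun x => 2 * x := by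
    funext x
    have := (hasDerivAt_pow 2 x).deriv
    simpa using this
  rw [h2]
  have h3 : HasDerivAt (fun x : ℝ => 2 * x) (2 * 1) X := (hasDerivAt_id X).const_mul 2
  rw [h3.deriv]
  norm_num

private theorem w0_dd_cont : Continuous (deriv (deriv w0)) := by
  have h2 : ContDiff ℝ 2 w0 := w0_contDiff.of_le (by
    exact WithTop.coe_le_coe.2 (le_top : (2 : ℕ∞) ≤ ⊤))
  have h1 : ContDiff ℝ 1 (deriv w0) := by
    have : ContDiff ℝ (1 + 1) w0 := by simpa [one_add_one_eq_two] using h2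
    exact (contDiff_succ_iff_deriv.1 this).2.2
  exact h1.continuous_deriv le_rfl

private theorem w0_dd_bound : ∃ C : ℝ, 0 < C ∧ ∀ X, |deriv (deriv w0) X| ≤ C := by
  obtain ⟨C, hC⟩ := (isCompact_Icc (a := (-2 : ℝ)) (b := 2)).exists_bound_of_continuousOn
    w0_dd_cont.continuousOn
  refine ⟨max C 2, lt_of_lt_of_le two_pos (le_max_right _ _), fun X => ?_⟩
  by_cases hr : 1 < X
  · rw [w0_dd_right hr]
    norm_num
  · by_cases hl : X < -1
    · rw [w0_dd_left hl]
      norm_num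
    · have := hC X ⟨by linarith, by linarith⟩
      rw [Real.norm_eq_abs] at this
      exact this.trans (le_max_left _ _)

theorem base_family : ∃ r > 0, ∃ w, WallFam (Disc (1, 0) r) w := by
  obtain ⟨C, hC0, hC⟩ := w0_dd_bound
  set w : P4 → ℝ := fun P => w0 P.2.2.1 with hw
  have hsm : ContDiff ℝ (⊤ : ℕ∞) w :=
    w0_contDiff.comp (contDiff_fst.comp (contDiff_snd.comp contDiff_snd))
  have hxx : ∀ a b X Y : ℝ, H2 w (a, b, X, Y) eX eX = deriv (deriv w0) X := by
    intro a b X Y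
    rw [H2_slice_xx hsm]
  have hxy : ∀ a b X Y : ℝ, H2 w (a, b, X, Y) eX eY = 0 := by
    intro a b X Y
    rw [H2_slice_xy hsm]
    simp [hw]
  have hyy : ∀ a b X Y : ℝ, H2 w (a, b, X, Y) eY eY = 0 := by
    intro a b X Y
    rw [H2_slice_yy hsm]
    simp [hw]
  have hrpos : 0 < min (1 / 10) (1 / (2 * C)) := lt_min (by norm_num) (by positivity)
  refine ⟨min (1 / 10) (1 / (2 * C)), hrpos, w, ?_⟩
  refine ⟨hsm, fun a b X Y => rfl, ?_, ?_⟩
  · intro a b X Y h
    show w0 X = _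
    rcases le_abs'.1 h with h1 | h1
    · rw [w0_left h1, abs_of_neg (by linarith)]
      ring
    · rw [w0_right h1, abs_of_pos (by linarith)]
      ring
  · intro a b X Y hab
    set r := min (1 / 10) (1 / (2 * C)) with hr
    have hr1 : r ≤ 1 / 10 := min_le_left _ _
    have hr2 : C * r ≤ 1 / 2 := by
      have : r ≤ 1 / (2 * C) := min_le_right _ _
      calc C * r ≤ C * (1 / (2 * C)) := mul_le_mul_of_nonneg_left this hC0.le
        _ = 1 / 2 := by field_simp
    have hd : (a - 1) ^ 2 + (b - 0) ^ 2 ≤ r ^ 2 := hab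
    have ha : |a - 1| ≤ r := by
      apply abs_le_of_sq_le_sq _ hrpos.le
      nlinarith [sq_nonneg (b - 0)]
    have hb : |b| ≤ r := by
      apply abs_le_of_sq_le_sq _ hrpos.le
      nlinarith [sq_nonneg (a - 1)]
    have ha1 : 9 / 10 ≤ a := by
      have := (abs_le.1 ha).1
      linarith
    rw [hxx, hxy, hyy]
    have hg := hC X
    set g := deriv (deriv w0) X
    have hgb : g * b ≤ 1 / 2 := by
      calc g * b ≤ |g * b| := le_abs_self _
        _ = |g| * |b| := abs_mul _ _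
        _ ≤ C * r := mul_le_mul hg hb (abs_nonneg _) hC0.le
        _ ≤ 1 / 2 := hr2
    refine ⟨?_, ?_⟩
    · have : (81 : ℝ) / 100 ≤ a ^ 2 := by nlinarith
      simp only [add_zero]
      linarith
    · simp only [add_zero]
      nlinarith [sq_nonneg g, sq_nonneg b]

theorem WallFam_mono {U V : Set (ℝ × ℝ)} {w : P4 → ℝ} (h : WallFam U w) (hVU : V ⊆ U) :
    WallFam V w :=
  ⟨h.smooth, h.periodic, h.outer, fun a b X Y hab => h.good a b X Y (hVU hab)⟩

end Pool.Agent.Helper98.MW
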