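import Pool.Agent.Helper98.MW.B.DiscFacts
import Pool.Agent.Helper98.MW.C.Growth
import Pool.Agent.Helper98.MW.D.Base

/-! MW-D02. From a small disc to a large one with the same centre: iterate `growth`: for all `m`, there is a family over
`Disc c (min R (θ^m r))`: if `θ^(m+1) r ≤ R` apply `growth` to `θ^m r`; otherwise apply it to `R/θ ≤ min R (θ^m r)`
(restriction by `WallFam_mono`, `Disc_mono`). For `m` large `θ^m r ≥ R`. -/

namespace Pool.Agent.Helper98.MW

theorem expand {c : ℝ × ℝ} {r R : ℝ} (hr : 0 < r) (hR : Disc c R ⊆ Dom) (hR0 : 0 < R)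
    (h : ∃ w, WallFam (Disc c r) w) : ∃ w, WallFam (Disc c R) w := by
  obtain ⟨θ, hθ1, hgrow⟩ := growth c hR0 hR
  have hθ0 : 0 < θ := zero_lt_one.trans hθ1
  have key : ∀ m : ℕ, ∃ w, WallFam (Disc c (min R (θ ^ m * r))) w := by
    intro m
    induction m with
    | zero =>
      obtain ⟨w, hw⟩ := h
      refine ⟨w, WallFam_mono hw (Disc_mono c ?_ ?_)⟩
      · exact le_min hR0.le (by positivity)
      · rw [pow_zero, one_mul]
        exact min_le_right _ _
    | succ m ih =>
      set s : ℝ := min R (θ ^ m * r) with hs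
      have hs0 : 0 < s := lt_min hR0 (by positivity)
      have hnn : 0 ≤ min R (θ ^ (m + 1) * r) := le_min hR0.le (by positivity)
      by_cases hle : θ * s ≤ R
      · obtain ⟨w, hw⟩ := hgrow s hs0 hle ih
        refine ⟨w, WallFam_mono hw (Disc_mono c hnn ?_)⟩
        rcases min_choice R (θ ^ m * r) with h1 | h1
        · rw [hs, h1]
          calc min R (θ ^ (m + 1) * r) ≤ R := min_le_left _ _
            _ ≤ θ * R := by nlinarith
        · rw [hs, h1]
          calc min R (θ ^ (m + 1) * r) ≤ θ ^ (m + 1) * r := min_le_right _ _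
            _ = θ * (θ ^ m * r) := by ring
      · have hlt : R < θ * s := not_le.1 hle
        have hdiv : R / θ ≤ s := by
          rw [div_le_iff₀ hθ0]
          linarith
        have hdiv0 : 0 < R / θ := div_pos hR0 hθ0
        have hmul : θ * (R / θ) = R := by field_simp
        obtain ⟨w, hw⟩ := ih
        obtain ⟨w', hw'⟩ := hgrow (R / θ) hdiv0 hmul.le
          ⟨w, WallFam_mono hw (Disc_mono c hdiv0.le hdiv)⟩
        rw [hmul] at hw'
        exact ⟨w', WallFam_mono hw' (Disc_mono c hnn (min_le_left _ _))⟩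
  obtain ⟨m, hm⟩ := pow_unbounded_of_one_lt (R / r) hθ1
  obtain ⟨w, hw⟩ := key m
  have hmin : min R (θ ^ m * r) = R := by
    apply min_eq_left
    rw [div_lt_iff₀ hr] at hm
    exact hm.le
  rw [hmin] at hw
  exact ⟨w, hw⟩

end Pool.Agent.Helper98.MW
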