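import Pool.Agent.Helper98.MW.A.Comp
import Pool.Agent.Helper98.MW.D.AllSmall

/-! MW-D04. Single walls: `w' (X, Y) = w (a, b, X, Y)`; `H2 w' (X, Y) (1,0) (1,0) = H2 w (a, b, X, Y) eX eX` etc. by
`H2_comp_affine` (`L = (X, Y) ↦ (0, 0, X, Y)`, constant `(a, b, 0, 0)`). `(a, b) ∈ Disc (a, 0) (a^2/8)`. -/

namespace Pool.Agent.Helper98.MW

theorem exists_wall {a b : ℝ} (ha : 0 < a) (ha1 : a ≤ 1) (hb : |b| ≤ a ^ 2 / 16) :
    ∃ w, Wall a b w := by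
  obtain ⟨w, hw⟩ := family_at ha ha1
  have hmem : (a, b) ∈ Disc (a, 0) (a ^ 2 / 8) := by
    show (a - a) ^ 2 + (b - 0) ^ 2 ≤ (a ^ 2 / 8) ^ 2
    have h1 : b ^ 2 ≤ (a ^ 2 / 16) ^ 2 := by
      rw [← sq_abs b]
      exact pow_le_pow_left₀ (abs_nonneg _) hb 2
    have h2 : (a ^ 2 / 16) ^ 2 ≤ (a ^ 2 / 8) ^ 2 :=
      pow_le_pow_left₀ (by positivity) (by have := sq_nonneg a; linarith) 2
    have h3 : (a - a) ^ 2 + (b - 0) ^ 2 = b ^ 2 := by ring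
    linarith
  let L : ℝ × ℝ →L[ℝ] P4 := (0 : ℝ × ℝ →L[ℝ] ℝ).prod ((0 : ℝ × ℝ →L[ℝ] ℝ).prod
    ((ContinuousLinearMap.fst ℝ ℝ ℝ).prod (ContinuousLinearMap.snd ℝ ℝ ℝ)))
  have hL : ∀ Q : ℝ × ℝ, L Q + ((a, b, 0, 0) : P4) = (a, b, Q.1, Q.2) := by
    intro Q
    show ((0 + a, 0 + b, Q.1 + 0, Q.2 + 0) : P4) = _
    rw [zero_add, zero_add, add_zero, add_zero]
  have hX : L (1, 0) = eX := rfl
  have hY : L (0, 1) = eY := rfl
  have hH : ∀ P v u : ℝ × ℝ, H2 (fun Q : ℝ × ℝ => w (a, b, Q.1, Q.2)) P v u =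
      H2 w (a, b, P.1, P.2) (L v) (L u) := by
    intro P v u
    have h := H2_comp_affine hw.smooth L ((a, b, 0, 0) : P4) P v u
    simp only [hL] at h
    exact h
  refine ⟨fun Q => w (a, b, Q.1, Q.2), ?_, ?_, ?_, ?_⟩
  · exact hw.smooth.comp (contDiff_const.prodMk (contDiff_const.prodMk
      (contDiff_fst.prodMk contDiff_snd)))
  · intro X Y
    exact hw.periodic a b X Y
  · intro X Y hX1
    exact hw.outer a b X Y hX1
  · intro X Y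
    rw [hH, hH, hH, hX, hY]
    exact hw.good a b X Y hmem

end Pool.Agent.Helper98.MW
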